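import Pool.Agent.H78.Geo.Final

/-!
# MP_406ab0_co: f-convexity of h-convex drawings is not decided by the `K_8` subdrawings

The answer to Q1 is negative, already for `n = 9`. The drawing is the geodesic drawing of `K_9` on
the points of the unit sphere in the directions
`(-2,1,-1), (0,-1,1), (-1,1,2), (0,1,1), (1,-2,1), (3,-1,0), (2,-2,-1), (1,1,3), (3,1,0)`,
edges being short great-circle arcs. Geodesic drawings are h-convex. The convex quadrilaterals
spanned by the crossing `K_4`s cover the sphere, so the drawing is not f-convex; for every eight of
the points they do not cover the sphere, and the induced drawing of `K_8` is f-convex.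
-/

namespace Pool.Agent.Results.MP_406ab0_co.KNineDrawing

open Pool.Agent.H78.Geo

/-- There is an h-convex good drawing of `K_9` in the sphere which is not f-convex, although all
its induced drawings of `K_8` are f-convex. -/
theorem result : ∃ D : Drawing (Fin 9), D.IsGood ∧ D.IsHConvex ∧ ¬ D.IsFConvex ∧
    ∀ f : Fin 8 ↪ Fin 9, (D.comap f).IsFConvex :=
  ⟨D9, geod_isGood gp9, geod_isHConvex gp9, D9_not_isFConvex, D9_comap_isFConvex⟩

end Pool.Agent.Results.MP_406ab0_co.KNineDrawing
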